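import Pool.Agent.W719.AR.Geo

set_option autoImplicit false

namespace Pool.Agent.W737.AR

open Finset Filter Topology Metric
open Pool.Agent.W711.HT
open Pool.Agent.W709.VC (Dv S_TET S_DSYM S_FIVE)
open Pool.Agent.W719.AR
open scoped Real

/-- derivative of the volume of a flag at `x` in the direction `y - x` -/
noncomputable def Lf (x y : Fl) : ℝ :=
  (y.a - x.a) * Real.log (2 * Real.sin x.a) + (y.b - x.b) * Real.log (2 * Real.sin x.b) +
    (y.c - x.c) * Real.log (2 * Real.sin x.c) + ((y.a' - x.a') * Real.log (2 * Real.sin x.a') +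
    (y.b' - x.b') * Real.log (2 * Real.sin x.b') + (y.c' - x.c') * Real.log (2 * Real.sin x.c'))

lemma vol_le (htet : S_TET) (x y : Fl) (hx : x.Pos) (hy : y.Pos) : y.vol ≤ x.vol - Lf x y := by
  obtain ⟨h1, h2, h3, h4, h5, h6, h7, h8⟩ := hx
  obtain ⟨k1, k2, k3, k4, k5, k6, k7, k8⟩ := hy
  have e1 := htet x.a x.b x.c y.a y.b y.c h1 h2 h3 h4 k1.le k2.le k3.le k4
  have e2 := htet x.a' x.b' x.c' y.a' y.b' y.c' h5 h6 h7 h8 k5.le k6.le k7.le k8
  unfold Fl.vol Lf
  linarith

/-- `ζ` -/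
noncomputable def ze (f g : Fl) : ℝ := 2 * f.a' + (g.a + g.b') - π - f.tw

/-- `T` -/
noncomputable def TT (ψ u : ℂ) (f g : Fl) : ℝ :=
  ((Lg u ψ).re * (f.tw - ψ.re) + ψ.im * (f.cr - (Lg u ψ).im)) / 2 +
    ze f g * Real.log ‖Complex.cos (ψ / 2)‖

lemma edge_alg (da db dc da' db' dc' ea eb ec ea' eb' ec' La Lb Lc La' Lb' Lc'
    Ma Mb Mc Ma' Mb' Mc' α β γ α' β' γ' y om y' om' h h' : ℝ)
    (c1 : da + db + dc = 0) (c2 : da' + db' + dc' = 0) (c3 : ea + eb + ec = 0)
    (c4 : ea' + eb' + ec' = 0) (c5 : db + dc' + (eb + ec') = 0)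
    (l1 : La - Lc = y + β - α) (l2 : Lb - Lc = γ - α) (l3 : La' - Lc' = om + α - γ)
    (l4 : Lb' - Lc' = β - γ) (l5 : β - γ + γ' - α' = (om' - y) / 2)
    (l6 : om / 2 - y / 2 - β + α = h - h')
    (m1 : Ma - Mc = y' + β' - α') (m2 : Mb - Mc = γ' - α') (m3 : Ma' - Mc' = om' + α' - γ')
    (m4 : Mb' - Mc' = β' - γ') (m5 : β' - γ' + γ - α = (om - y') / 2) :
    (da * La + db * Lb + dc * Lc + (da' * La' + db' * Lb' + dc' * Lc')) +
      (ea * Ma + eb * Mb + ec * Mc + (ea' * Ma' + eb' * Mb' + ec' * Mc')) =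
    ((om * (da + da' + db) + y * (da + da' + dc')) / 2 +
      (2 * da' + (ea + eb') - (da + da' + db)) * h) +
    ((om' * (ea + ea' + eb) + y' * (ea + ea' + ec')) / 2 +
      (2 * ea' + (da + db') - (ea + ea' + eb)) * h') := by
  obtain rfl : dc = -da - db := by linarith
  obtain rfl : dc' = -da' - db' := by linarith
  obtain rfl : ec = -ea - eb := by linarith
  obtain rfl : ec' = -ea' - eb' := by linarith
  obtain rfl : eb' = db - da' - db' + eb - ea' := by linarith
  obtain rfl : La = Lc + y + β - α := by linarith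
  obtain rfl : Lb = Lc + γ - α := by linarith
  obtain rfl : La' = Lc' + om + α - γ := by linarith
  obtain rfl : Lb' = Lc' + β - γ := by linarith
  obtain rfl : Ma = Mc + y' + β' - α' := by linarith
  obtain rfl : Mb = Mc + γ' - α' := by linarith
  obtain rfl : Ma' = Mc' + om' + α' - γ' := by linarith
  obtain rfl : Mb' = Mc' + β' - γ' := by linarith
  linear_combination ((da + db') + (2 * da' + (ea + (db - da' - db' + eb - ea')) - (da + da' + db))) * l5 +
    (ea + (db - da' - db' + eb - ea')) * m5 +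
    (2 * da' + (ea + (db - da' - db' + eb - ea')) - (da + da' + db)) * l6

lemma hp_symm {ψ ψ' u : ℂ} (h : HP ψ ψ' u) : HP ψ' ψ u where
  ne := h.ne'
  ne' := h.ne
  sm := h.sm'
  sm' := h.sm
  un := h.un
  eq := by rw [h.eq, mul_comm (Complex.cos ψ') (Complex.cos ψ)]; ring

lemma edge_id (hshp : S_SHP) (hlsn : S_LSN) {ψ ψ' u : ℂ} (h : HP ψ ψ' u) (f g : Fl) (hf : f.Pos)
    (hg : g.Pos) (hfg : f.b + f.c' + (g.b + g.c') = 2 * π) :
    Lf (fla ψ u) f + Lf (fla ψ' u) g = TT ψ u f g + TT ψ' u g f := by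
  obtain ⟨p1, s2, s3, s4, s5, s6⟩ := hshp ψ ψ' u h
  obtain ⟨p1', s2', s3', s4', s5', s6'⟩ := hshp ψ' ψ u (hp_symm h)
  obtain ⟨l1, l2, l3, l4, l5, l6⟩ := hlsn ψ ψ' u h
  obtain ⟨m1, m2, m3, m4, m5, m6⟩ := hlsn ψ' ψ u (hp_symm h)
  obtain ⟨-, -, -, q1, -, -, -, q2⟩ := p1
  obtain ⟨-, -, -, q3, -, -, -, q4⟩ := p1'
  obtain ⟨-, -, -, q5, -, -, -, q6⟩ := hf
  obtain ⟨-, -, -, q7, -, -, -, q8⟩ := hg
  have key := edge_alg (f.a - (fla ψ u).a) (f.b - (fla ψ u).b) (f.c - (fla ψ u).c)
    (f.a' - (fla ψ u).a') (f.b' - (fla ψ u).b') (f.c' - (fla ψ u).c')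
    (g.a - (fla ψ' u).a) (g.b - (fla ψ' u).b) (g.c - (fla ψ' u).c)
    (g.a' - (fla ψ' u).a') (g.b' - (fla ψ' u).b') (g.c' - (fla ψ' u).c')
    _ _ _ _ _ _ _ _ _ _ _ _ _ _ _ _ _ _ _ _ _ _ _ _
    (by linarith) (by linarith) (by linarith) (by linarith) (by linarith)
    l1 l2 l3 l4 l5 l6 m1 m2 m3 m4 m5
  have t1 : f.tw - ψ.re = (f.a - (fla ψ u).a) + (f.a' - (fla ψ u).a') + (f.b - (fla ψ u).b) := by
    rw [← s5]; unfold Fl.tw; ring
  have t2 : f.cr - (Lg u ψ).im =
      (f.a - (fla ψ u).a) + (f.a' - (fla ψ u).a') + (f.c' - (fla ψ u).c') := by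
    rw [← s6]; unfold Fl.cr; ring
  have t3 : g.tw - ψ'.re =
      (g.a - (fla ψ' u).a) + (g.a' - (fla ψ' u).a') + (g.b - (fla ψ' u).b) := by
    rw [← s5']; unfold Fl.tw; ring
  have t4 : g.cr - (Lg u ψ').im =
      (g.a - (fla ψ' u).a) + (g.a' - (fla ψ' u).a') + (g.c' - (fla ψ' u).c') := by
    rw [← s6']; unfold Fl.cr; ring
  have t5 : ze f g = 2 * (f.a' - (fla ψ u).a') + ((g.a - (fla ψ' u).a) + (g.b' - (fla ψ' u).b')) -
      ((f.a - (fla ψ u).a) + (f.a' - (fla ψ u).a') + (f.b - (fla ψ u).b)) := by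
    rw [← t1]; unfold ze; linarith
  have t6 : ze g f = 2 * (g.a' - (fla ψ' u).a') + ((f.a - (fla ψ u).a) + (f.b' - (fla ψ u).b')) -
      ((g.a - (fla ψ' u).a) + (g.a' - (fla ψ' u).a') + (g.b - (fla ψ' u).b)) := by
    rw [← t3]; unfold ze; linarith
  unfold Lf TT
  rw [t1, t2, t3, t4, t5, t6]
  exact key

/-- the edges at the root: parameter, number at the child, the two `Fl` of `y` -/
noncomputable def el (dl : ℂ → ℂ → ℂ) : PT → AT → List ((ℂ × ℂ) × (Fl × Fl))
  | .br t c, .br t' _ f g => el dl t t' ++ [((2 * π * dl c.rz t.rz, c.rz), (f, g))]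
  | _, _ => []

/-- the total derivative -/
noncomputable def LL (dl : ℂ → ℂ → ℂ) : PT → AT → ℝ
  | .br t c, .br t' c' f g => LL dl t t' + LL dl c c' +
      (Lf (fla t.rz (2 * π * dl c.rz t.rz)) f + Lf (fla c.rz (2 * π * dl c.rz t.rz)) g)
  | _, _ => 0

lemma shape_cases (p : PT) (y : AT) (h : y.shape = p.shape) :
    (∃ a z, p = .vx a z ∧ y = .vx a) ∨
    ∃ t c t' c' f g, p = .br t c ∧ y = .br t' c' f g ∧ t'.shape = t.shape ∧ c'.shape = c.shape := by
  cases p with
  | vx a z =>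
    cases y with
    | vx b =>
      left
      simp only [AT.shape, PT.shape, Tr.vx.injEq] at h
      exact ⟨a, z, rfl, by rw [h]⟩
    | br t' c' f g => simp [AT.shape, PT.shape] at h
  | br t c =>
    cases y with
    | vx b => simp [AT.shape, PT.shape] at h
    | br t' c' f g =>
      right
      simp only [AT.shape, PT.shape, Tr.br.injEq] at h
      exact ⟨t, c, t', c', f, g, rfl, rfl, h.1, h.2⟩

lemma wt_eq (dl : ℂ → ℂ → ℂ) (p : PT) (y : AT) (h : y.shape = p.shape) : y.wt = p.wt := by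
  induction p generalizing y with
  | vx a z =>
    rcases shape_cases _ y h with ⟨a', z', h1, rfl⟩ | ⟨t, c, t', c', f, g, h1, -⟩
    · simp only [PT.vx.injEq] at h1
      simp [AT.wt, PT.wt, h1.1]
    · simp at h1
  | br t c iht ihc =>
    rcases shape_cases _ y h with ⟨a', z', h1, -⟩ | ⟨t, c, t', c', f, g, h1, rfl, h2, h3⟩
    · simp at h1
    · simp only [PT.br.injEq] at h1
      obtain ⟨rfl, rfl⟩ := h1
      simpa [AT.wt, PT.wt] using iht t' h2

lemma el_map (dl : ℂ → ℂ → ℂ) (p : PT) (y : AT) (h : y.shape = p.shape) :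
    (el dl p y).map Prod.snd = y.fl := by
  induction p generalizing y with
  | vx a z =>
    rcases shape_cases _ y h with ⟨a', z', h1, rfl⟩ | ⟨t, c, t', c', f, g, h1, -⟩
    · simp [el, AT.fl]
    · simp at h1
  | br t c iht ihc =>
    rcases shape_cases _ y h with ⟨a', z', h1, -⟩ | ⟨t, c, t', c', f, g, h1, rfl, h2, h3⟩
    · simp at h1
    · simp only [PT.br.injEq] at h1
      obtain ⟨rfl, rfl⟩ := h1
      simp [el, AT.fl, iht t' h2]

lemma el_lg (dl : ℂ → ℂ → ℂ) (p : PT) (y : AT) (h : y.shape = p.shape) :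
    ((el dl p y).map (fun e => Lg e.1.1 p.rz)).sum = p.lg dl := by
  induction p generalizing y with
  | vx a z =>
    rcases shape_cases _ y h with ⟨a', z', h1, rfl⟩ | ⟨t, c, t', c', f, g, h1, -⟩
    · simp [el, PT.lg]
    · simp at h1
  | br t c iht ihc =>
    rcases shape_cases _ y h with ⟨a', z', h1, -⟩ | ⟨t, c, t', c', f, g, h1, rfl, h2, h3⟩
    · simp at h1
    · simp only [PT.br.injEq] at h1
      obtain ⟨rfl, rfl⟩ := h1
      have := iht t' h2
      simp only [el, List.map_append, List.map_cons, List.map_nil, List.sum_append, List.sum_cons,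
        List.sum_nil, add_zero, PT.lg, PT.rz]
      rw [this]

/-- alternating signs -/
lemma alt_sum {E : Type} (z : E → ℝ) (l : List E) (x w : E)
    (h : (x :: (l ++ [w])).IsChain (fun a b => z b = -z a)) :
    ((l ++ [w]).map z).sum = -((x :: l).map z).sum := by
  induction l generalizing x with
  | nil =>
    simp only [List.nil_append, List.isChain_cons_cons] at h
    simp [h.1]
  | cons b l ih =>
    simp only [List.cons_append, List.isChain_cons_cons] at h
    have := ih b h.2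
    simp only [List.cons_append, List.map_cons, List.sum_cons] at this ⊢
    rw [this, h.1]
    ring

lemma alt_zero {E : Type} (z : E → ℝ) (l : List E)
    (h : (l ++ l.take 1).IsChain (fun a b => z b = -z a)) : (l.map z).sum = 0 := by
  cases l with
  | nil => simp
  | cons x l =>
    simp only [List.take_succ_cons, List.take_zero, List.cons_append] at h
    have := alt_sum z l x x h
    simp only [List.map_append, List.map_cons, List.map_nil, List.sum_append, List.sum_cons,
      List.sum_nil, add_zero] at this ⊢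
    linarith

lemma vertex (ψ : ℂ) (w : ℤ) (l : List ((ℂ × ℂ) × (Fl × Fl)))
    (hpos : ∀ e ∈ l, e.2.1.Pos ∧ e.2.2.Pos) (hv : VOK w (l.map Prod.snd))
    (hlg : Complex.I * (w * ψ + 2 * π) = (l.map (fun e => Lg e.1.1 ψ)).sum) :
    (l.map (fun e => TT ψ e.1.1 e.2.1 e.2.2)).sum = 0 := by
  obtain ⟨h1, h2, h3⟩ := hv
  cases hl : l with
  | nil => simp
  | cons e0 l0 =>
  have he0 : e0 ∈ l := by rw [hl]; simp
  rw [← hl]
  set ξ : ℝ := e0.2.1.tw with hξ
  have htw : ∀ e ∈ l, e.2.1.tw = ξ := by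
    intro e he
    exact h2 e.2 (List.mem_map_of_mem he) e0.2 (List.mem_map_of_mem he0)
  have hz : (l.map (fun e => ze e.2.1 e.2.2)).sum = 0 := by
    apply alt_zero
    have h4 : (l ++ l.take 1).IsChain (fun a b => Gap a.2 b.2) := by
      rw [← List.map_take, ← List.map_append, List.isChain_map] at h1
      exact h1
    have hmem : ∀ e ∈ l ++ l.take 1, e ∈ l := by
      intro e he
      rcases List.mem_append.mp he with h | h
      · exact h
      · exact List.mem_of_mem_take h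
    refine List.IsChain.imp_of_mem_imp ?_ h4
    intro a b ha hb hab
    have ha' := hmem a ha
    have hb' := hmem b hb
    obtain ⟨⟨-, -, -, q1, -, -, -, q2⟩, -⟩ := hpos a ha'
    obtain ⟨⟨-, -, -, q3, -, -, -, q4⟩, -⟩ := hpos b hb'
    have t1 := htw a ha'
    have t2 := htw b hb'
    unfold Gap at hab
    unfold ze
    unfold Fl.tw at *
    linarith
  have hcr : (l.map (fun e => e.2.1.cr)).sum = 2 * π + w * ξ := by
    have := h3 e0.2 (List.mem_map_of_mem he0)
    rw [List.map_map] at this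
    exact this
  have hre : (l.map (fun e => (Lg e.1.1 ψ).re)).sum = -(w * ψ.im) := by
    have h5 : (l.map (fun e => (Lg e.1.1 ψ).re)).sum = ((l.map (fun e => Lg e.1.1 ψ)).sum).re := by
      rw [← Complex.coe_reAddGroupHom, map_list_sum, List.map_map]
      rfl
    rw [h5, ← hlg]
    simp
  have him : (l.map (fun e => (Lg e.1.1 ψ).im)).sum = w * ψ.re + 2 * π := by
    have h5 : (l.map (fun e => (Lg e.1.1 ψ).im)).sum = ((l.map (fun e => Lg e.1.1 ψ)).sum).im := by
      rw [← Complex.coe_imAddGroupHom, map_list_sum, List.map_map]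
      rfl
    rw [h5, ← hlg]
    simp
  have h6 : (l.map (fun e => TT ψ e.1.1 e.2.1 e.2.2)).sum =
      (l.map (fun e => (Lg e.1.1 ψ).re)).sum * ((ξ - ψ.re) / 2) +
      ((l.map (fun e => e.2.1.cr)).sum - (l.map (fun e => (Lg e.1.1 ψ).im)).sum) * (ψ.im / 2) +
      (l.map (fun e => ze e.2.1 e.2.2)).sum * Real.log ‖Complex.cos (ψ / 2)‖ := by
    have h7 : ∀ m : List ((ℂ × ℂ) × (Fl × Fl)), (∀ e ∈ m, e.2.1.tw = ξ) →
        (m.map (fun e => TT ψ e.1.1 e.2.1 e.2.2)).sum =
      (m.map (fun e => (Lg e.1.1 ψ).re)).sum * ((ξ - ψ.re) / 2) +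
      ((m.map (fun e => e.2.1.cr)).sum - (m.map (fun e => (Lg e.1.1 ψ).im)).sum) * (ψ.im / 2) +
      (m.map (fun e => ze e.2.1 e.2.2)).sum * Real.log ‖Complex.cos (ψ / 2)‖ := by
      intro m
      induction m with
      | nil => intro _; simp
      | cons e m ih =>
        intro hm
        simp only [List.map_cons, List.sum_cons]
        rw [ih (fun e' he' => hm e' (List.mem_cons_of_mem _ he'))]
        have := hm e List.mem_cons_self
        unfold TT
        rw [this]
        ring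
    exact h7 l htw
  rw [h6, hz, hcr, hre, him]
  ring

lemma el_pos (dl : ℂ → ℂ → ℂ) (p : PT) (y : AT) (h : y.shape = p.shape) (hy : y.OK) :
    ∀ e ∈ el dl p y, e.2.1.Pos ∧ e.2.2.Pos := by
  induction p generalizing y with
  | vx a z =>
    rcases shape_cases _ y h with ⟨a', z', h1, rfl⟩ | ⟨t, c, t', c', f, g, h1, -⟩
    · simp [el]
    · simp at h1
  | br t c iht ihc =>
    rcases shape_cases _ y h with ⟨a', z', h1, -⟩ | ⟨t, c, t', c', f, g, h1, rfl, h2, h3⟩
    · simp at h1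
    · simp only [PT.br.injEq] at h1
      obtain ⟨rfl, rfl⟩ := h1
      obtain ⟨k1, k2, k3, k4, k5, k6⟩ := hy
      intro e he
      simp only [el, List.mem_append, List.mem_singleton] at he
      rcases he with he | rfl
      · exact iht t' h2 k1 e he
      · exact ⟨k3, k4⟩

lemma LL_eq (hshp : S_SHP) (hlsn : S_LSN) (dl : ℂ → ℂ → ℂ) (p : PT) (hp : p.hpt dl)
    (hcr : p.lcr dl) (y : AT) (h : y.shape = p.shape) (hy : y.OK) :
    LL dl p y = ((el dl p y).map (fun e => TT p.rz e.1.1 e.2.1 e.2.2)).sum := by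
  induction p generalizing y with
  | vx a z =>
    rcases shape_cases _ y h with ⟨a', z', h1, rfl⟩ | ⟨t, c, t', c', f, g, h1, -⟩
    · simp [el, LL]
    · simp at h1
  | br t c iht ihc =>
    rcases shape_cases _ y h with ⟨a', z', h1, -⟩ | ⟨t, c, t', c', f, g, h1, rfl, h2, h3⟩
    · simp at h1
    · simp only [PT.br.injEq] at h1
      obtain ⟨rfl, rfl⟩ := h1
      obtain ⟨k1, k2, k3, k4, k5, k6⟩ := hy
      obtain ⟨n1, n2, n3⟩ := hp
      obtain ⟨r1, r2, r3⟩ := hcr
      have e1 := iht n1 r1 t' h2 k1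
      have e2 := ihc n2 r2 c' h3 k2
      have e3 := edge_id hshp hlsn (hp_symm n3) f g k3 k4 k5
      have e4 := vertex c.rz c.wt
        (((2 * π * dl c.rz t.rz, t.rz), (g, f)) :: el dl c c')
        (by
          intro e he
          rcases List.mem_cons.mp he with rfl | he
          · exact ⟨k4, k3⟩
          · exact el_pos dl c c' h3 k2 e he)
        (by
          rw [List.map_cons, el_map dl c c' h3, ← wt_eq dl c c' h3]
          exact k6)
        (by
          rw [List.map_cons, List.sum_cons, el_lg dl c c' h3]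
          exact r3)
      simp only [List.map_cons, List.sum_cons] at e4
      simp only [LL, el, List.map_append, List.map_cons, List.map_nil, List.sum_append,
        List.sum_cons, List.sum_nil, add_zero, PT.rz]
      rw [e1, e2, e3]
      linarith

lemma vol_LL (htet : S_TET) (hshp : S_SHP) (dl : ℂ → ℂ → ℂ) (p : PT) (hp : p.hpt dl)
    (y : AT) (h : y.shape = p.shape) (hy : y.OK) :
    y.vol ≤ (p.ang dl).vol - 2 * LL dl p y := by
  induction p generalizing y with
  | vx a z =>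
    rcases shape_cases _ y h with ⟨a', z', h1, rfl⟩ | ⟨t, c, t', c', f, g, h1, -⟩
    · simp [LL, AT.vol, PT.ang]
    · simp at h1
  | br t c iht ihc =>
    rcases shape_cases _ y h with ⟨a', z', h1, -⟩ | ⟨t, c, t', c', f, g, h1, rfl, h2, h3⟩
    · simp at h1
    · simp only [PT.br.injEq] at h1
      obtain ⟨rfl, rfl⟩ := h1
      obtain ⟨k1, k2, k3, k4, k5, k6⟩ := hy
      obtain ⟨n1, n2, n3⟩ := hp
      have e1 := iht n1 t' h2 k1
      have e2 := ihc n2 c' h3 k2
      have e3 := vol_le htet _ f (hshp _ _ _ (hp_symm n3)).1 k3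
      have e4 := vol_le htet _ g (hshp _ _ _ n3).1 k4
      simp only [LL, AT.vol, PT.ang]
      linarith

theorem gmt : S_TET → S_SHP → S_LSN → S_GMT := by
  intro htet hshp hlsn dl p hp hcr hnc hroot y hshape hy
  have h1 := vol_LL htet hshp dl p hp y hshape hy.1
  have h2 := LL_eq hshp hlsn dl p hp hcr y hshape hy.1
  have h3 := vertex p.rz p.wt (el dl p y) (el_pos dl p y hshape hy.1)
    (by rw [el_map dl p y hshape, ← wt_eq dl p y hshape]; exact hy.2)
    (by rw [el_lg dl p y hshape]; exact hroot)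
  rw [h3] at h2
  rw [h2] at h1
  linarith

end Pool.Agent.W737.AR
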